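import Pool.Agent.MP_9808b6_an.Lin.C

namespace Pool.Agent.Results.MP_9808b6_an.PolyGrowth

theorem result (θ : ℝ) (hθ : 1 + 1 / Real.log 2 < θ) :
    ∃ K : ℝ, ∀ d : ℕ, 1 ≤ d → ∀ n : ℕ,
      ∀ a : Finset (Fin n) → ℝ, (∀ S : Finset (Fin n), d < S.card → a S = 0) →
      ∀ M : ℝ,
        (∀ x : Fin n → ℝ, (∀ i, x i = 1 ∨ x i = -1) →
          |∑ S : Finset (Fin n), a S * ∏ i ∈ S, x i| ≤ M) →
        (∑ S : Finset (Fin n), |a S| ^ ((2 * (d : ℝ)) / ((d : ℝ) + 1))) ^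
            (((d : ℝ) + 1) / (2 * (d : ℝ))) ≤ K * (d : ℝ) ^ θ * M :=
  Pool.Agent.MP_9808b6_an.Lin.main' θ hθ

end Pool.Agent.Results.MP_9808b6_an.PolyGrowth
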